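import Pool.Agent.H719.PC.Final

/-!
# Planar inputs can make graph covering easy

A connected planar graph `H` (74 vertices, 90 edges) such that COVER(`H`) is NP-complete while
PLANARCOVER(`H`) is solvable in polynomial time.

`H` consists of three pieces between two vertices `t 0` and `t 1`.  The piece `i` is a cycle
`u i 0, w i 0, u i 1, w i 1` of length four with all edges doubled; the edges have four colours
(written as the number of leaves at the middle vertex of a subdivided edge), and the two edges which
are parallel in the piece `i` are those on which a nonzero linear functional on the group of colours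
`(ℤ/2)²` takes the same value; the three pieces belong to the three functionals.  A part of an
input graph covers the piece `i` exactly if all its closed walks have sum of colours in the kernel
of the functional.  If it covered two pieces it would have no two parallel edges, but a bipartite
4-regular graph without parallel edges is not planar.  So in a planar input every part knows its
piece, and the rest is a system of equations modulo 2.  In non-planar inputs a part may cover all
three pieces, and the vertices over `t 0` and `t 1` force different pieces at their three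
neighbours: this encodes 3-colourability.
-/

namespace Pool.Agent.Results.MP_b84816_lc.PlanarCoverEasy

open Pool.Agent.NPC Pool.Agent.NPC.R671 Pool.Agent.H239R2.Planar Pool.Agent.H719.PC

/-- A graph is planar: it has a planar rotation system or a straight-line drawing in the plane. -/
def Planar {V : Type} (G : SimpleGraph V) : Prop := IsPlanar G ∨ HasStraightLineDrawing G

/-- The decision problem COVER(`H`), on adjacency matrices. -/
def CoverProblem {W : Type} (H : SimpleGraph W) (M : List (List Bool)) : Prop :=
  ∃ (n : ℕ) (G : SimpleGraph (Fin n)), adjMatrix G = M ∧ Covers G H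

/-- COVER(`H`) is NP-complete. -/
def CoverNPComplete {W : Type} (H : SimpleGraph W) : Prop :=
  InNPP (CoverProblem H) ∧ NPHardP (CoverProblem H)

/-- PLANARCOVER(`H`) is in P: a polynomial-time algorithm is correct on all planar inputs. -/
def PlanarCoverInP {W : Type} (H : SimpleGraph W) : Prop :=
  ∃ D : List Bool → List Bool, PolyTime D ∧ ∀ (n : ℕ) (G : SimpleGraph (Fin n)), Planar G →
    (D (bits (adjMatrix G)) = [true] ↔ Covers G H)

/-- PLANARCOVER(`H`) is NP-complete: on planar inputs it agrees with a language in NP, and every
language in NP is reduced to it by a polynomial-time function all of whose values are planar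
graphs. -/
def PlanarCoverNPComplete {W : Type} (H : SimpleGraph W) : Prop :=
  (∃ L : Set (List Bool), InNP L ∧ ∀ (n : ℕ) (G : SimpleGraph (Fin n)), Planar G →
    (bits (adjMatrix G) ∈ L ↔ Covers G H)) ∧
  ∀ L : Set (List Bool), InNP L → ∃ f : List Bool → List Bool, PolyTime f ∧
    ∀ x, ∃ (n : ℕ) (G : SimpleGraph (Fin n)), Planar G ∧ f x = bits (adjMatrix G) ∧
      (x ∈ L ↔ Covers G H)

/-- `H` admits a (finite, nonempty) planar cover. -/
def HasPlanarCover {W : Type} (H : SimpleGraph W) : Prop :=
  ∃ (V : Type) (_ : Fintype V) (_ : Nonempty V) (G : SimpleGraph V), Planar G ∧ Covers G H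

/-- There is a connected planar graph `H` such that COVER(`H`) is NP-complete and
PLANARCOVER(`H`) is in P; so if P is not NP, the equivalence 'PLANARCOVER(`H`) is NP-complete if and
only if COVER(`H`) is NP-complete and `H` admits a planar cover' fails for `H`. -/
theorem result : ∃ (V : Type) (_ : Fintype V) (H : SimpleGraph V),
    H.Connected ∧ IsPlanar H ∧ HasStraightLineDrawing H ∧
    CoverNPComplete H ∧ PlanarCoverInP H ∧
    ((∃ L : Set (List Bool), InNP L ∧ ¬ InP L) →
      ¬ (PlanarCoverNPComplete H ↔ (CoverNPComplete H ∧ HasPlanarCover H))) := by
  refine ⟨HV, inferInstance, HG, HG_connected, HG_planar, taskF2, np_complete, planar_easy, ?_⟩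
  rintro ⟨L, hL, hL'⟩ h
  obtain ⟨_, hhard⟩ := h.2 ⟨np_complete, HV, inferInstance, ⟨.t true⟩, HG, Or.inl HG_planar,
    covers_refl HG⟩
  obtain ⟨D, hD, hD'⟩ := planar_easy
  obtain ⟨f, hf, hf'⟩ := hhard L hL
  refine hL' ⟨fun x => D (f x), Pool.Agent.H642R2.TMSim.polyTime_comp hD hf, fun x => ?_⟩
  obtain ⟨n, G, hG, hfx, hx⟩ := hf' x
  change x ∈ L ↔ D (f x) = [true]
  rw [hx, hfx, hD' n G hG]

end Pool.Agent.Results.MP_b84816_lc.PlanarCoverEasy
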